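import Mathlib

/-!
Tools for building induced trees.
-/

set_option autoImplicit false

namespace Pool.Agent.MP_40785c_co

open SimpleGraph Finset

variable {V : Type*} {G : SimpleGraph V}

/-- There is an induced tree with at least `n` vertices. -/
def Big (G : SimpleGraph V) (n : ℕ) : Prop :=
  ∃ S : Finset V, (G.induce (S : Set V)).IsTree ∧ n ≤ S.card

theorem Big.mono {m n : ℕ} (h : Big G n) (hmn : m ≤ n) : Big G m := by
  obtain ⟨S, h1, h2⟩ := h
  exact ⟨S, h1, hmn.trans h2⟩

theorem isTree_of_rank (S : Set V) (rk : V → ℕ) (r0 : V) (hr0 : r0 ∈ S)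
    (hpar : ∀ v ∈ S, v ≠ r0 → ∃ u ∈ S, G.Adj v u ∧ rk u < rk v)
    (huniq : ∀ v ∈ S, ∀ u ∈ S, ∀ u' ∈ S, G.Adj v u → G.Adj v u' → rk u ≤ rk v → rk u' ≤ rk v →
      u = u') : (G.induce S).IsTree := by
  classical
  have hreach : ∀ n : ℕ, ∀ v : S, rk v = n → (G.induce S).Reachable v ⟨r0, hr0⟩ := by
    intro n
    induction n using Nat.strong_induction_on with
    | _ n ih =>
      intro v hv
      by_cases h : (v : V) = r0
      · have : v = ⟨r0, hr0⟩ := Subtype.ext h
        rw [this]
      · obtain ⟨u, hu, hadj, hlt⟩ := hpar v v.2 h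
        have h1 : (G.induce S).Adj v ⟨u, hu⟩ := hadj
        exact h1.reachable.trans (ih (rk u) (hv ▸ hlt) ⟨u, hu⟩ rfl)
  refine ⟨?_, ?_⟩
  · have : Nonempty S := ⟨⟨r0, hr0⟩⟩
    exact ⟨fun a b => (hreach _ a rfl).trans (hreach _ b rfl).symm⟩
  · intro v c hc
    have hne : c.support.toFinset.Nonempty := ⟨v, by simp⟩
    obtain ⟨m, hm, hmax⟩ := c.support.toFinset.exists_max_image (fun x => rk x) hne
    rw [List.mem_toFinset] at hm
    have hc' := hc.rotate hm
    set c' := c.rotate m hm with hc'def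
    have hsupp : ∀ x ∈ c'.support, rk x ≤ rk m := by
      intro x hx
      apply hmax
      rw [List.mem_toFinset]
      exact (Walk.mem_support_rotate_iff _ _ _).1 hx
    have h1 : (G.induce S).Adj m c'.snd := c'.adj_snd hc'.not_nil
    have h2 : (G.induce S).Adj c'.penultimate m := c'.adj_penultimate hc'.not_nil
    have h3 := huniq m m.2 c'.snd c'.snd.2 c'.penultimate c'.penultimate.2 h1 h2.symm
      (hsupp _ (c'.getVert_mem_support _)) (hsupp _ (c'.getVert_mem_support _))
    exact hc'.snd_ne_penultimate (Subtype.ext h3)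

theorem big_of_idx {ι : Type*} (J : Finset ι) (h : ι → V) (rk : ι → ℕ) (i0 : ι) (hi0 : i0 ∈ J)
    (hinj : ∀ i ∈ J, ∀ j ∈ J, h i = h j → i = j)
    (hpar : ∀ i ∈ J, i ≠ i0 → ∃ j ∈ J, G.Adj (h i) (h j) ∧ rk j < rk i)
    (huniq : ∀ i ∈ J, ∀ j ∈ J, ∀ j' ∈ J, G.Adj (h i) (h j) → G.Adj (h i) (h j') → rk j ≤ rk i →
      rk j' ≤ rk i → j = j') : Big G J.card := by
  classical
  let rk' : V → ℕ := fun v => if hv : ∃ i ∈ J, h i = v then rk hv.choose else 0
  have hrk : ∀ i ∈ J, rk' (h i) = rk i := by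
    intro i hi
    have hv : ∃ j ∈ J, h j = h i := ⟨i, hi, rfl⟩
    simp only [rk', dif_pos hv]
    rw [hinj _ hv.choose_spec.1 _ hi hv.choose_spec.2]
  refine ⟨J.image h, ?_, ?_⟩
  · apply isTree_of_rank _ rk' (h i0) (by simpa using ⟨i0, hi0, rfl⟩)
    · intro v hv hne
      obtain ⟨i, hi, rfl⟩ := mem_image.1 (mem_coe.1 hv)
      obtain ⟨j, hj, hadj, hlt⟩ := hpar i hi (fun e => hne (by rw [e]))
      exact ⟨h j, by simpa using ⟨j, hj, rfl⟩, hadj, by rwa [hrk i hi, hrk j hj]⟩
    · intro v hv u hu u' hu' h1 h2 h3 h4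
      obtain ⟨i, hi, rfl⟩ := mem_image.1 (mem_coe.1 hv)
      obtain ⟨j, hj, rfl⟩ := mem_image.1 (mem_coe.1 hu)
      obtain ⟨j', hj', rfl⟩ := mem_image.1 (mem_coe.1 hu')
      rw [hrk i hi, hrk j hj] at h3
      rw [hrk i hi, hrk j' hj'] at h4
      rw [huniq i hi j hj j' hj' h1 h2 h3 h4]
  · rw [card_image_of_injOn (fun i hi j hj e => hinj i hi j hj e)]

/-- `p 0, …, p (N-1)` is an induced path. -/
structure IndPath (G : SimpleGraph V) (p : ℕ → V) (N : ℕ) : Prop where
  adj : ∀ i j, i < N → j < N → (G.Adj (p i) (p j) ↔ i + 1 = j ∨ j + 1 = i)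
  inj : ∀ i j, i < N → j < N → p i = p j → i = j

theorem IndPath.mono {p : ℕ → V} {N M : ℕ} (h : IndPath G p N) (hMN : M ≤ N) : IndPath G p M :=
  ⟨fun i j hi hj => h.adj i j (by omega) (by omega), fun i j hi hj => h.inj i j (by omega) (by omega)⟩

theorem IndPath.big {p : ℕ → V} {N : ℕ} (h : IndPath G p N) (hN : 0 < N) : Big G N := by
  have := big_of_idx (G := G) (range N) p id 0 (mem_range.2 hN)
    (fun i hi j hj => h.inj i j (mem_range.1 hi) (mem_range.1 hj))
    (fun i hi hne => by
      rw [mem_range] at hi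
      refine ⟨i - 1, mem_range.2 (by omega), ?_, by simp; omega⟩
      rw [h.adj _ _ hi (by omega)]
      omega)
    (fun i hi j hj j' hj' h1 h2 h3 h4 => by
      rw [mem_range] at hi hj hj'
      rw [h.adj _ _ hi hj] at h1
      rw [h.adj _ _ hi hj'] at h2
      simp only [id] at h3 h4
      omega)
  simpa using this

/-- A tail together with two segments of an induced path, each holding exactly one neighbour of
the last vertex of the tail (the second segment may be empty). -/
theorem big_two {p q : ℕ → V} {N s : ℕ} (hp : IndPath G p N) (hq : IndPath G q s) (hs : 0 < s)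
    {l1 h1 g1 l2 n2 g2 : ℕ} (hl1 : l1 ≤ g1) (hg1 : g1 ≤ h1) (h12 : h1 + 1 < l2) (hN1 : h1 < N)
    (hl2 : l2 ≤ g2) (hg2 : n2 = 0 ∨ (g2 < l2 + n2 ∧ l2 + n2 ≤ N))
    (hne : ∀ i < s, ∀ a < N, q i ≠ p a)
    (hna : ∀ i, i + 1 < s → ∀ a < N, ¬ G.Adj (q i) (p a))
    (hnb : ∀ a, (l1 ≤ a ∧ a ≤ h1) ∨ (l2 ≤ a ∧ a < l2 + n2) →
      (G.Adj (q (s - 1)) (p a) ↔ a = g1 ∨ a = g2)) :
    Big G (s + (h1 + 1 - l1) + n2) := by
  have hqp : ∀ i < s, ∀ a, (l1 ≤ a ∧ a ≤ h1) ∨ (l2 ≤ a ∧ a < l2 + n2) →
      (G.Adj (q i) (p a) ↔ i + 1 = s ∧ (a = g1 ∨ a = g2)) := by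
    intro i hi a ha
    by_cases h : i + 1 = s
    · have : i = s - 1 := by omega
      rw [this, hnb a ha]
      simp; omega
    · have := hna i (by omega) a (by omega)
      simp [this, h]
  have hdisj : Disjoint (Icc l1 h1) (Ico l2 (l2 + n2)) := by
    rw [Finset.disjoint_left]
    intro a ha hb
    rw [mem_Icc] at ha
    rw [mem_Ico] at hb
    omega
  have := big_of_idx (G := G) ((range s).disjSum (Icc l1 h1 ∪ Ico l2 (l2 + n2))) (Sum.elim q p)
    (Sum.elim id fun a => s + (if a ≤ h1 then (a - g1) + (g1 - a) else (a - g2) + (g2 - a)))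
    (Sum.inl 0) (by simpa using hs)
    (by
      rintro (i | i) hi (j | j) hj e <;>
        simp only [inl_mem_disjSum, inr_mem_disjSum, mem_range, mem_union, mem_Icc, mem_Ico,
          Sum.elim_inl, Sum.elim_inr] at hi hj e
      · rw [hq.inj i j hi hj e]
      · exact absurd e (hne i hi j (by omega))
      · exact absurd e.symm (hne j hj i (by omega))
      · rw [hp.inj i j (by omega) (by omega) e])
    (by
      rintro (i | i) hi hne' <;>
        simp only [inl_mem_disjSum, inr_mem_disjSum, mem_range, mem_union, mem_Icc, mem_Ico]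
          at hi
      · have : i ≠ 0 := fun e => hne' (by rw [e])
        refine ⟨Sum.inl (i - 1), by simp; omega, ?_, by simp; omega⟩
        simp only [Sum.elim_inl]
        rw [hq.adj _ _ hi (by omega)]
        omega
      · by_cases hc : (i ≤ h1 ∧ i = g1) ∨ (h1 < i ∧ i = g2)
        · refine ⟨Sum.inl (s - 1), by simp; omega, ?_, by simp; omega⟩
          simp only [Sum.elim_inl, Sum.elim_inr]
          rw [G.adj_comm, hqp _ (by omega) _ hi]
          omega
        · by_cases hc' : (i ≤ h1 ∧ g1 < i) ∨ (h1 < i ∧ g2 < i)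
          · refine ⟨Sum.inr (i - 1), by simp; omega, ?_, ?_⟩
            · simp only [Sum.elim_inr]
              rw [hp.adj _ _ (by omega) (by omega)]
              omega
            · simp only [Sum.elim_inr]
              split_ifs <;> omega
          · refine ⟨Sum.inr (i + 1), by simp; omega, ?_, ?_⟩
            · simp only [Sum.elim_inr]
              rw [hp.adj _ _ (by omega) (by omega)]
              omega
            · simp only [Sum.elim_inr]
              split_ifs <;> omega)
    (by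
      rintro (i | i) hi (j | j) hj (j' | j') hj' a1 a2 r1 r2 <;>
        simp only [inl_mem_disjSum, inr_mem_disjSum, mem_range, mem_union, mem_Icc, mem_Ico,
          Sum.elim_inl, Sum.elim_inr, id] at hi hj hj' a1 a2 r1 r2
      · rw [hq.adj _ _ hi hj] at a1
        rw [hq.adj _ _ hi hj'] at a2
        congr 1
        omega
      · omega
      · omega
      · omega
      · rw [G.adj_comm, hqp _ hj _ hi] at a1
        rw [G.adj_comm, hqp _ hj' _ hi] at a2
        congr 1
        omega
      · rw [G.adj_comm, hqp _ hj _ hi] at a1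
        rw [hp.adj _ _ (by omega) (by omega)] at a2
        exfalso
        split_ifs at r2 <;> omega
      · rw [G.adj_comm, hqp _ hj' _ hi] at a2
        rw [hp.adj _ _ (by omega) (by omega)] at a1
        exfalso
        split_ifs at r1 <;> omega
      · rw [hp.adj _ _ (by omega) (by omega)] at a1 a2
        congr 1
        split_ifs at r1 r2 <;> omega)
  rw [card_disjSum, card_union_of_disjoint hdisj] at this
  simpa [add_assoc] using this

end Pool.Agent.MP_40785c_co
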