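import Pool.Agent.MP_40785c_co.Metric

/-!
A connected graph of radius at least `r` with a vertex of degree one has an induced tree on
`2 * r` vertices.
-/

set_option autoImplicit false

namespace Pool.Agent.MP_40785c_co

open SimpleGraph Finset

variable {V : Type*} {G : SimpleGraph V}

theorem exists_greatest (P : ℕ → Prop) {n : ℕ} (h : ∃ a ≤ n, P a) :
    ∃ a ≤ n, P a ∧ ∀ b ≤ n, P b → b ≤ a := by
  classical
  obtain ⟨a, ha, hP⟩ := h
  exact ⟨Nat.findGreatest P n, Nat.findGreatest_le n, Nat.findGreatest_spec ha hP,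
    fun b hb hPb => Nat.le_findGreatest hb hPb⟩

theorem exists_least (P : ℕ → Prop) (h : ∃ a, P a) : ∃ a, P a ∧ ∀ b, P b → a ≤ b := by
  classical
  exact ⟨Nat.find h, Nat.find_spec h, fun b hb => Nat.find_min' h hb⟩

theorem cycle_or_big (hG : G.Connected) {r N : ℕ} (hr : 3 ≤ r) (hN : N + 1 = 2 * r)
    {p vv : ℕ → V} {y : V} (hp : IndPath G p N) (hvv : IndPath G vv (r + 1))
    (hvp : ∀ i, 1 ≤ i → i ≤ r → vv i = p (r - i))
    (hy1 : r ≤ G.dist (p (r - 1)) y) (hy0 : G.dist (vv 0) y < r)
    (hD : ∀ z a b, a + 2 ≤ r → r ≤ b → b < N → G.Adj z (p a) → G.Adj z (p b) →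
      2 * r ≤ a + b + 3 ∧ a + b + 2 ≤ 2 * r) :
    Big G (2 * r) ∨ ((∀ a < N, y ≠ p a) ∧ ∀ a < N, (G.Adj y (p a) ↔ a = 0 ∨ a + 1 = N)) := by
  have h01 : G.dist (p (r - 1)) (vv 0) = 1 := by
    rw [← hvp 1 le_rfl (by omega)]
    exact dist_adj ((hvv.adj 1 0 (by omega) (by omega)).2 (by omega))
  have hyp : ∀ a < N, y ≠ p a := by
    intro a ha e
    have := hp.dist_le hG (i := r - 1) (j := a) (by omega) ha
    rw [← e] at this
    omega
  obtain ⟨q, s, ht⟩ := exists_tail hG (fun z => (∃ a < N, p a = z) ∨ z = vv 0)
    ⟨vv 0, Or.inr rfl⟩ y (by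
      rintro (⟨a, ha, e⟩ | e)
      · exact hyp a ha e.symm
      · rw [e] at hy1; omega)
  have hZ : ∀ a < N, (∃ a' < N, p a' = p a) ∨ p a = vv 0 := fun a ha => Or.inl ⟨a, ha, rfl⟩
  have hs : s < r := by
    have := ht.le (vv 0) (Or.inr rfl)
    rw [dist_comm] at this
    omega
  have hpos := ht.pos
  have hb : ∀ a < N, G.Adj (q (s - 1)) (p a) → a + 1 ≤ s ∨ 2 * r ≤ a + s + 1 := by
    intro a ha hadj
    have h1 := ht.near _ hadj
    have h2 := hp.dist_le hG (i := r - 1) (j := a) (by omega) ha
    have h3 := hG.dist_triangle (u := p (r - 1)) (v := p a) (w := y)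
    rw [dist_comm] at h1
    omega
  by_cases hL : ∃ a ≤ r - 2, G.Adj (q (s - 1)) (p a)
  · by_cases hR : ∃ b, r ≤ b ∧ b < N ∧ G.Adj (q (s - 1)) (p b)
    · obtain ⟨a, ha, haa⟩ := hL
      obtain ⟨b, hb1, hb2, hbb⟩ := hR
      by_cases hs1 : s = 1
      · right
        refine ⟨hyp, fun c hc => ?_⟩
        subst hs1
        simp only [Nat.sub_self, ht.start] at hb haa hbb
        constructor
        · intro h
          have := hb c hc h
          omega
        · rintro (h | h)
          · have := hb a (by omega) haa
            have e : a = c := by omega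
            rwa [← e]
          · have := hb b hb2 hbb
            have e : b = c := by omega
            rwa [← e]
      · left
        have hab := hD _ a b (by omega) hb1 hb2 haa hbb
        by_cases h1 : ∃ a' ≤ r - 2, a' ≠ a ∧ G.Adj (q (s - 1)) (p a')
        · obtain ⟨a', ha', hne, haa'⟩ := h1
          have hab' := hD _ a' b (by omega) hb1 hb2 haa' hbb
          have hc : G.Adj (q (s - 1)) (p (min a a')) := by
            rcases le_total a a' with h | h
            · rwa [min_eq_left h]
            · rwa [min_eq_right h]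
          refine (ht.big_two hp hZ (l1 := 0) (h1 := min a a') (g1 := min a a')
            (l2 := min a a' + 2) (n2 := N - (min a a' + 2)) (g2 := b) (by omega) le_rfl (by omega)
            (by omega) (by omega) (by omega) fun c hc' => ?_).mono (by omega)
          constructor
          · intro h
            have h2 := hb c (by omega) h
            by_cases hcr : c + 2 ≤ r
            · have := hD _ c b hcr hb1 hb2 h hbb
              omega
            · have h3 := hD _ a c (by omega) (by omega) (by omega) haa h
              have h4 := hD _ a' c (by omega) (by omega) (by omega) haa' h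
              omega
          · rintro (h | h) <;> rw [h] <;> assumption
        · by_cases h2 : ∃ b', r ≤ b' ∧ b' < N ∧ b' ≠ b ∧ G.Adj (q (s - 1)) (p b')
          · obtain ⟨b', hb1', hb2', hne, hbb'⟩ := h2
            have hab' := hD _ a b' (by omega) hb1' hb2' haa hbb'
            have hc : G.Adj (q (s - 1)) (p (max b b')) := by
              rcases le_total b b' with h | h
              · rwa [max_eq_right h]
              · rwa [max_eq_left h]
            refine (ht.big_two hp hZ (l1 := 0) (h1 := max b b' - 2) (g1 := a)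
              (l2 := max b b') (n2 := N - max b b') (g2 := max b b') (by omega) (by omega)
              (by omega) (by omega) (by omega) (by omega) fun c hc' => ?_).mono (by omega)
            constructor
            · intro h
              have h2 := hb c (by omega) h
              by_cases hcr : c + 2 ≤ r
              · by_contra hcon
                exact h1 ⟨c, by omega, by omega, h⟩
              · have h3 := hD _ a c (by omega) (by omega) (by omega) haa h
                omega
            · rintro (h | h) <;> rw [h] <;> assumption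
          · refine (ht.big_two hp hZ (l1 := 0) (h1 := r - 2) (g1 := a)
              (l2 := r) (n2 := r - 1) (g2 := b) (by omega) (by omega)
              (by omega) (by omega) (by omega) (by omega) fun c hc' => ?_).mono (by omega)
            constructor
            · intro h
              by_contra hcon
              by_cases hcr : c + 2 ≤ r
              · exact h1 ⟨c, by omega, by omega, h⟩
              · exact h2 ⟨c, by omega, by omega, by omega, h⟩
            · rintro (h | h) <;> rw [h] <;> assumption
    · left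
      obtain ⟨a, ha, haa, hmax⟩ := exists_greatest _ hL
      have h0 := hb a (by omega) haa
      refine (ht.big_one hp hZ (l1 := a) (h1 := N - 1) (g1 := a) le_rfl (by omega) (by omega)
        fun c hc1 hc2 => ?_).mono (by omega)
      constructor
      · intro h
        have h2 := hb c (by omega) h
        by_cases hcr : c + 2 ≤ r
        · have := hmax c (by omega) h
          omega
        · exact absurd ⟨c, by omega, by omega, h⟩ hR
      · rintro rfl; exact haa
  · left
    by_cases hR : ∃ b, r ≤ b ∧ b < N ∧ G.Adj (q (s - 1)) (p b)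
    · obtain ⟨b, ⟨hb1, hb2, hbb⟩, hmin⟩ := exists_least _ hR
      have h0 := hb b hb2 hbb
      refine (ht.big_one hp hZ (l1 := 0) (h1 := b) (g1 := b) (by omega) le_rfl hb2
        fun c hc1 hc2 => ?_).mono (by omega)
      constructor
      · intro h
        have h2 := hb c (by omega) h
        by_cases hcr : c + 2 ≤ r
        · exact absurd ⟨c, by omega, h⟩ hL
        · have := hmin c ⟨by omega, by omega, h⟩
          omega
      · rintro rfl; exact hbb
    · have hno : ∀ c < N, ¬ G.Adj (q (s - 1)) (p c) := by
        intro c hc h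
        have h2 := hb c hc h
        by_cases hcr : c + 2 ≤ r
        · exact hL ⟨c, by omega, h⟩
        · exact hR ⟨c, by omega, hc, h⟩
      have hv0 : G.Adj (q (s - 1)) (vv 0) := by
        obtain ⟨z, (⟨a, ha, rfl⟩ | rfl), hz⟩ := ht.ex
        · exact absurd hz (hno a ha)
        · exact hz
      have h1 := ht.near _ hv0
      have h3 := hG.dist_triangle (u := p (r - 1)) (v := vv 0) (w := y)
      rw [dist_comm] at h1
      refine (ht.big_one hvv (fun a ha => ?_) (l1 := 0) (h1 := r) (g1 := 0) le_rfl (by omega)
        (by omega) fun c _ hc2 => ?_).mono (by omega)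
      · by_cases h : a = 0
        · right; rw [h]
        · left; exact ⟨r - a, by omega, (hvp a (by omega) (by omega)).symm⟩
      · constructor
        · intro h
          by_contra hcon
          rw [hvp c (by omega) hc2] at h
          exact hno _ (by omega) h
        · rintro rfl; exact hv0

section cycle

variable {p : ℕ → V} {N : ℕ} {y : V}

theorem cyc_mem (p : ℕ → V) (N : ℕ) (y : V) (i : ℕ) :
    (∃ a < N, p a = cyc p N y i) ∨ cyc p N y i = y := by
  unfold cyc
  split_ifs with h
  · exact Or.inl ⟨_, h, rfl⟩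
  · exact Or.inr rfl

theorem cyc_of_lt (p : ℕ → V) (y : V) {a : ℕ} (ha : a < N) : cyc p N y a = p a := by
  have : red (N + 1) a = a := by unfold red; split_ifs <;> omega
  unfold cyc
  rw [this, if_pos ha]

theorem cyc_top (p : ℕ → V) (N : ℕ) (y : V) : cyc p N y N = y := by
  have : red (N + 1) N = N := by unfold red; split_ifs <;> omega
  unfold cyc
  rw [this, if_neg (lt_irrefl N)]

theorem cyc_congr (p : ℕ → V) (y : V) {i j : ℕ} (h : red (N + 1) i = red (N + 1) j) :
    cyc p N y i = cyc p N y j := by
  unfold cyc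
  rw [h]

theorem exists_cyc {z : V} (hz : (∃ a < N, p a = z) ∨ z = y) : ∃ o ≤ N, cyc p N y o = z := by
  rcases hz with ⟨a, ha, rfl⟩ | rfl
  · exact ⟨a, ha.le, cyc_of_lt p y ha⟩
  · exact ⟨N, le_rfl, cyc_top p N z⟩

variable (hp : IndPath G p N) (hN : 3 ≤ N) (hne : ∀ a < N, y ≠ p a)
  (hy : ∀ a < N, (G.Adj y (p a) ↔ a = 0 ∨ a + 1 = N))
include hp hN hne hy

theorem window {l : V} {q : ℕ → V} {s : ℕ}
    (ht : Tail G (fun z => (∃ a < N, p a = z) ∨ z = y) l q s) {o M : ℕ} (ho : o ≤ 2 * (N + 1))
    (hM : 1 ≤ M) (hMN : M ≤ N) (h0 : G.Adj (q (s - 1)) (cyc p N y o))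
    (h1 : ∀ i, 0 < i → i < M → ¬ G.Adj (q (s - 1)) (cyc p N y (o + i))) : Big G (s + M) := by
  refine (ht.big_one (cyc_indPath hp hN hne hy ho) (fun a _ => cyc_mem p N y (o + a))
    (l1 := 0) (h1 := M - 1) (g1 := 0) le_rfl (by omega) (by omega) fun c _ hc => ?_).mono
    (by omega)
  constructor
  · intro h
    by_contra hcon
    exact h1 c (by omega) (by omega) h
  · rintro rfl; exact h0

theorem cyc_adj {t : ℕ} (ht : t ≤ 2 * (N + 1)) : G.Adj (cyc p N y t) (cyc p N y (t + 1)) :=
  ((cyc_indPath hp hN hne hy ht).adj 0 1 (by omega) (by omega)).2 (by omega)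

theorem arc_window (hG : G.Connected) {l : V} {q : ℕ → V} {s : ℕ}
    (ht : Tail G (fun z => (∃ a < N, p a = z) ∨ z = y) l q s) {lo r : ℕ} (hrN : r ≤ N)
    (hlo : lo + r ≤ 2 * (N + 1))
    (hd : r ≤ G.dist (cyc p N y lo) (cyc p N y (lo + r)))
    (harc : ∀ i < 3 * (N + 1), G.Adj (q (s - 1)) (cyc p N y i) →
      ∃ j, lo ≤ j ∧ j ≤ lo + r ∧ red (N + 1) j = red (N + 1) i) : Big G (s + (N - 1)) := by
  have hex : ∃ j ≤ lo + r, lo ≤ j ∧ G.Adj (q (s - 1)) (cyc p N y j) := by
    obtain ⟨z, hz, hadj⟩ := ht.ex
    obtain ⟨o, ho, rfl⟩ := exists_cyc hz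
    obtain ⟨j, h1, h2, h3⟩ := harc o (by omega) hadj
    exact ⟨j, h2, h1, by rwa [cyc_congr p y h3]⟩
  obtain ⟨j, hj1, ⟨hj2, hj3⟩, hmax⟩ := exists_greatest _ hex
  refine window hp hN hne hy ht (o := j) (by omega) (by omega) (by omega) hj3 fun i hi1 hi2 h => ?_
  obtain ⟨j', h1, h2, h3⟩ := harc (j + i) (by omega) h
  rw [← cyc_congr p y h3] at h
  have h4 := hmax j' h2 ⟨h1, h⟩
  have h5 := dist_chain hG (cyc p N y) h1 fun t _ _ => cyc_adj hp hN hne hy (by omega)
  have h6 := dist_chain hG (cyc p N y) hj1 fun t _ _ => cyc_adj hp hN hne hy (by omega)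
  have h7 := hG.dist_triangle (u := cyc p N y lo) (v := cyc p N y j') (w := cyc p N y (lo + r))
  have h8 := hG.dist_triangle (u := cyc p N y j') (v := cyc p N y j) (w := cyc p N y (lo + r))
  have h9 := hG.dist_triangle (u := cyc p N y j') (v := q (s - 1)) (w := cyc p N y j)
  rw [dist_adj h.symm, dist_adj hj3] at h9
  unfold red at h3
  split_ifs at h3 <;> omega

theorem leaf_cycle (hG : G.Connected) {r : ℕ} (hr : 3 ≤ r) (hNr : N + 1 = 2 * r)
    (hy1 : r ≤ G.dist (p (r - 1)) y)
    (hD : ∀ z a b, a + 2 ≤ r → r ≤ b → b < N → G.Adj z (p a) → G.Adj z (p b) →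
      a + b + 2 = 2 * r) {l u : V} (hl : ∀ x, G.Adj l x → x = u) : Big G (2 * r) := by
  have hlZ : ¬ ((∃ a < N, p a = l) ∨ l = y) := by
    intro h
    obtain ⟨o, ho, e⟩ := exists_cyc h
    have hP := cyc_indPath hp hN hne hy (o := o + N) (by omega)
    have e1 : cyc p N y (o + N + 1) = l := by
      rw [← e]
      apply cyc_congr
      unfold red
      split_ifs <;> omega
    have a0 := (hP.adj 1 0 (by omega) (by omega)).2 (by omega)
    have a2 := (hP.adj 1 2 (by omega) (by omega)).2 (by omega)
    simp only [e1] at a0 a2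
    have := hP.inj 0 2 (by omega) (by omega) ((hl _ a0).trans (hl _ a2).symm)
    omega
  obtain ⟨q, s, ht⟩ := exists_tail hG (fun z => (∃ a < N, p a = z) ∨ z = y) ⟨y, Or.inr rfl⟩ l hlZ
  have hpos := ht.pos
  by_cases hs1 : s = 1
  · subst hs1
    obtain ⟨z, hz, hadj⟩ := ht.ex
    obtain ⟨o, ho, rfl⟩ := exists_cyc hz
    refine (window hp hN hne hy ht (o := o) (M := N) (by omega) (by omega) le_rfl hadj
      fun i hi1 hi2 h => ?_).mono (by omega)
    simp only [Nat.sub_self, ht.start] at hadj h
    have := (cyc_indPath hp hN hne hy (o := o) (by omega)).inj 0 i (by omega) hi2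
      ((hl _ hadj).trans (hl _ h).symm)
    omega
  by_cases hR : ∃ b, r ≤ b ∧ b < N ∧ G.Adj (q (s - 1)) (p b)
  · by_cases hL : ∃ a, a + 2 ≤ r ∧ G.Adj (q (s - 1)) (p a)
    · obtain ⟨a, ha, haa⟩ := hL
      obtain ⟨b, hb1, hb2, hbb⟩ := hR
      have hab := hD _ a b ha hb1 hb2 haa hbb
      refine (ht.big_two hp (fun a ha => Or.inl ⟨a, ha, rfl⟩) (l1 := 0) (h1 := r - 2) (g1 := a)
        (l2 := r) (n2 := r - 1) (g2 := b) (by omega) (by omega)
        (by omega) (by omega) (by omega) (by omega) fun c hc' => ?_).mono (by omega)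
      constructor
      · intro h
        by_cases hcr : c + 2 ≤ r
        · have := hD _ c b hcr hb1 hb2 h hbb
          omega
        · have := hD _ a c ha (by omega) (by omega) haa h
          omega
      · rintro (h | h) <;> rw [h] <;> assumption
    · refine (arc_window hp hN hne hy hG ht (lo := r - 1) (r := r) (by omega) (by omega) ?_
        fun i hi h => ?_).mono (by omega)
      · have e : r - 1 + r = N := by omega
        rw [e, cyc_top, cyc_of_lt p y (by omega)]
        exact hy1
      · have hred : red (N + 1) i ≤ N := by unfold red; split_ifs <;> omega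
        refine ⟨red (N + 1) i, ?_, by omega, by unfold red at *; split_ifs at * <;> omega⟩
        by_contra hcon
        unfold cyc at h
        rw [if_pos (by omega)] at h
        exact hL ⟨_, by omega, h⟩
  · refine (arc_window hp hN hne hy hG ht (lo := N) (r := r) (by omega) (by omega) ?_
      fun i hi h => ?_).mono (by omega)
    · have e : cyc p N y (N + r) = cyc p N y (r - 1) := by
        apply cyc_congr
        unfold red
        split_ifs <;> omega
      rw [e, cyc_top, cyc_of_lt p y (by omega), dist_comm]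
      exact hy1
    · have hred : red (N + 1) i ≤ N := by unfold red; split_ifs <;> omega
      by_cases h1 : red (N + 1) i = N
      · exact ⟨N, le_rfl, by omega, by rw [h1]; unfold red; split_ifs <;> omega⟩
      · have h2 : red (N + 1) i < r := by
          by_contra hcon
          unfold cyc at h
          rw [if_pos (by omega)] at h
          exact hR ⟨_, by omega, by omega, h⟩
        refine ⟨red (N + 1) i + (N + 1), by omega, by omega, ?_⟩
        generalize red (N + 1) i = t at *
        unfold red
        split_ifs <;> omega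

end cycle

theorem two_arm {v w : ℕ → V} {r k σ : ℕ} (hr : 1 ≤ r) (hσ : σ ≤ k) (hv : Geo G v r)
    (hw : Geo G w k) (h1 : ∀ i j, 2 ≤ i → i ≤ r → j ≤ k → 2 ≤ G.dist (v i) (w j))
    (h2 : G.Adj (v 1) (w σ)) (h3 : ∀ j, σ < j → j ≤ k → 2 ≤ G.dist (v 1) (w j)) :
    IndPath G (fun i => if i < r then v (r - i) else w (i - r + σ)) (r + k + 1 - σ) := by
  have key : ∀ i j, i < r → r ≤ j → j < r + k + 1 - σ →
      (i + 1 = j ∧ G.dist (v (r - i)) (w (j - r + σ)) = 1) ∨
      (i + 1 ≠ j ∧ 2 ≤ G.dist (v (r - i)) (w (j - r + σ))) := by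
    intro i j hi hj hj'
    by_cases hi1 : i + 1 = r
    · have e : r - i = 1 := by omega
      rw [e]
      by_cases hj1 : j = r
      · left
        have e' : j - r + σ = σ := by omega
        rw [e']
        exact ⟨by omega, dist_adj h2⟩
      · right
        exact ⟨by omega, h3 _ (by omega) (by omega)⟩
    · right
      exact ⟨by omega, h1 _ _ (by omega) (by omega) (by omega)⟩
  constructor
  · intro i j hi hj
    rw [← dist_eq_one_iff_adj]
    by_cases a : i < r <;> by_cases b : j < r
    · rw [if_pos a, if_pos b, hv _ _ (by omega) (by omega)]; omega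
    · rw [if_pos a, if_neg b]
      have := key i j a (by omega) hj
      omega
    · rw [if_neg a, if_pos b, dist_comm]
      have := key j i b (by omega) hi
      omega
    · rw [if_neg a, if_neg b, hw _ _ (by omega) (by omega)]; omega
  · intro i j hi hj e
    have h0 : G.dist (if i < r then v (r - i) else w (i - r + σ))
        (if j < r then v (r - j) else w (j - r + σ)) = 0 := by
      rw [e, SimpleGraph.dist_self]
    by_cases a : i < r <;> by_cases b : j < r
    · rw [if_pos a, if_pos b, hv _ _ (by omega) (by omega)] at h0; omega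
    · rw [if_pos a, if_neg b] at h0
      have := key i j a (by omega) hj
      omega
    · rw [if_neg a, if_pos b, SimpleGraph.dist_comm] at h0
      have := key j i b (by omega) hi
      omega
    · rw [if_neg a, if_neg b, hw _ _ (by omega) (by omega)] at h0; omega

theorem main_large [Fintype V] (hG : G.Connected) {r : ℕ} (hr : 3 ≤ r)
    (hfar : ∀ v, ∃ y, r ≤ G.dist v y) {l u : V} (hl : ∀ x, G.Adj l x → x = u) :
    Big G (2 * r) := by
  obtain ⟨v0, x, hx, hroot⟩ := exists_root hG (by omega) hfar
  obtain ⟨v, hv0, hvx, hv⟩ := exists_geo hG v0 x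
  rw [hx] at hvx hv
  obtain ⟨w', hw1, hw2⟩ := hroot (v 2) (by rw [← hvx, hv _ _ (by omega) le_rfl]; omega)
  obtain ⟨y, hy0, hy1⟩ := hroot (v 1) (by rw [← hvx, hv _ _ (by omega) le_rfl]; omega)
  obtain ⟨w, hw0, hwk, hw⟩ := exists_geo hG v0 w'
  set k := G.dist v0 w' with hk
  have hlv : ∀ i ≤ r, G.dist v0 (v i) = i := fun i hi => by
    rw [← hv0, hv _ _ (by omega) hi]; omega
  have hlw : ∀ j ≤ k, G.dist v0 (w j) = j := fun j hj => by
    rw [← hw0, hw _ _ (by omega) hj]; omega
  have hk2 : r ≤ k + 2 := by
    have h1 := hG.dist_triangle (u := v 2) (v := v0) (w := w')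
    have h2 := hlv 2 (by omega)
    rw [dist_comm] at h2
    omega
  have hvw : ∀ i j, 1 ≤ i → i ≤ r → j ≤ k →
      r ≤ (i - 2) + (2 - i) + G.dist (v i) (w j) + (k - j) := by
    intro i j _ hi hj
    have h1 := hG.dist_triangle (u := v 2) (v := v i) (w := w')
    have h2 := hG.dist_triangle (u := v i) (v := w j) (w := w')
    have h3 := hv 2 i (by omega) hi
    have h4 := hw j k hj le_rfl
    rw [hwk] at h4
    omega
  have hlev : ∀ i j, i ≤ r → j ≤ k → i ≤ j + G.dist (v i) (w j) := by
    intro i j hi hj
    have h1 := hG.dist_triangle (u := v0) (v := w j) (w := v i)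
    rw [hlv i hi, hlw j hj, dist_comm] at h1
    exact h1
  have F1 : ∀ i j, 2 ≤ i → i ≤ r → j ≤ k → 2 ≤ G.dist (v i) (w j) := by
    intro i j h1 h2 h3
    have := hvw i j (by omega) h2 h3
    have := hlev i j h2 h3
    omega
  have F2 : ∀ j ≤ k, r + j ≤ 1 + k + G.dist (v 1) (w j) := by
    intro j hj
    have := hvw 1 j le_rfl (by omega) hj
    omega
  have hD : ∀ σ, k + 2 = r + σ → ∀ z a b, a + 2 ≤ r → r ≤ b → b < 2 * r - 1 →
      G.Adj z (if a < r then v (r - a) else w (a - r + σ)) →
      G.Adj z (if b < r then v (r - b) else w (b - r + σ)) →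
      2 * r ≤ a + b + 2 + σ ∧ a + b + 2 ≤ 2 * r := by
    intro σ hσ z a b ha hb hb' h1 h2
    rw [if_pos (by omega)] at h1
    rw [if_neg (by omega)] at h2
    have h3 := hG.dist_triangle (u := v (r - a)) (v := z) (w := w (b - r + σ))
    rw [dist_adj h1.symm, dist_adj h2] at h3
    have h4 := hvw (r - a) (b - r + σ) (by omega) (by omega) (by omega)
    have h5 := hlev (r - a) (b - r + σ) (by omega) (by omega)
    omega
  by_cases hb : G.Adj (v 1) (w 1)
  · have hk1 : k + 1 = r := by
      have := F2 1 (by omega)
      rw [dist_adj hb] at this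
      omega
    have hp := two_arm (σ := 1) (by omega) (by omega) hv hw F1 hb
      (fun j h1 h2 => by have := F2 j h2; omega)
    have eN : r + k + 1 - 1 = 2 * r - 1 := by omega
    rw [eN] at hp
    have hp1 : (if r - 1 < r then v (r - (r - 1)) else w (r - 1 - r + 1)) = v 1 := by
      rw [if_pos (by omega)]; congr 1; omega
    rcases cycle_or_big hG hr (N := 2 * r - 1) (by omega) (y := y) hp hv.indPath
      (fun i h1 h2 => by rw [if_pos (by omega)]; congr 1; omega)
      (by rw [hp1]; exact hy1) (by rw [hv0]; exact hy0)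
      (fun z a b ha hb hb' h1 h2 => by
        have := hD 1 (by omega) z a b ha hb hb' h1 h2
        omega) with h | ⟨hne, hy⟩
    · exact h
    · set p : ℕ → V := fun i => if i < r then v (r - i) else w (i - r + 1) with hpdef
      have hlp : ∀ a < 2 * r - 1, G.dist v0 (p a) = if a < r then r - a else a - r + 1 := by
        intro a ha
        simp only [hpdef]
        split_ifs
        · exact hlv _ (by omega)
        · exact hlw _ (by omega)
      have hdy : r ≤ G.dist v0 y + 1 := by
        have h1 := hG.dist_triangle (u := v 1) (v := v0) (w := y)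
        have h2 := hlv 1 (by omega)
        rw [dist_comm] at h2
        omega
      obtain ⟨q, s, ht⟩ := exists_tail hG (fun z => (∃ a < 2 * r - 1, p a = z) ∨ z = y)
        ⟨y, Or.inr rfl⟩ v0 (by
          rintro (⟨a, ha, e⟩ | e)
          · have := hlp a ha
            rw [e, dist_self] at this
            split_ifs at this <;> omega
          · rw [← e, dist_self] at hdy
            omega)
      have hs1 : s = 1 := by
        have h1 := ht.le (p r) (Or.inl ⟨r, by omega, rfl⟩)
        have h2 := hlp r (by omega)
        have h3 := ht.pos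
        rw [if_neg (by omega)] at h2
        omega
      subst hs1
      refine (window hp (by omega) hne hy ht (o := r) (M := 2 * r - 1) (by omega) (by omega)
        le_rfl ?_ fun i hi1 hi2 h => ?_).mono (by omega)
      · simp only [Nat.sub_self, ht.start]
        rw [cyc_of_lt p y (by omega), ← dist_eq_one_iff_adj, hlp r (by omega), if_neg (by omega)]
        omega
      · simp only [Nat.sub_self, ht.start] at h
        have h' := dist_adj h
        unfold cyc at h'
        split_ifs at h' with hc
        · rw [hlp _ hc] at h'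
          unfold red at h' hc
          split_ifs at h' hc <;> omega
        · omega
  · have h10 : G.Adj (v 1) (w 0) := by
      rw [hw0, ← dist_eq_one_iff_adj, dist_comm]
      exact hlv 1 (by omega)
    have hp := two_arm (σ := 0) (by omega) (by omega) hv hw F1 h10
      (fun j h1 h2 => by
        have h3 := F2 j h2
        by_cases hj : j = 1
        · subst hj
          have : G.dist (v 1) (w 1) ≠ 1 := fun e => hb (dist_eq_one_iff_adj.1 e)
          omega
        · omega)
    by_cases hk1 : k + 1 = r
    · exact (hp.big (by omega)).mono (by omega)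
    · have eN : r + k + 1 - 0 = 2 * r - 1 := by omega
      rw [eN] at hp
      have hp1 : (if r - 1 < r then v (r - (r - 1)) else w (r - 1 - r + 0)) = v 1 := by
        rw [if_pos (by omega)]; congr 1; omega
      rcases cycle_or_big hG hr (N := 2 * r - 1) (by omega) (y := y) hp hv.indPath
        (fun i h1 h2 => by rw [if_pos (by omega)]; congr 1; omega)
        (by rw [hp1]; exact hy1) (by rw [hv0]; exact hy0)
        (fun z a b ha hb hb' h1 h2 => by
          have := hD 0 (by omega) z a b ha hb hb' h1 h2
          omega) with h | ⟨hne, hy⟩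
      · exact h
      · exact leaf_cycle hp (by omega) hne hy hG hr (by omega) (by rw [hp1]; exact hy1)
          (fun z a b ha hb hb' h1 h2 => by
            have := hD 0 (by omega) z a b ha hb hb' h1 h2
            omega) hl

theorem big_dist (hG : G.Connected) (a b : V) : Big G (G.dist a b + 1) := by
  obtain ⟨f, _, _, hf⟩ := exists_geo hG a b
  exact hf.indPath.big (by omega)

theorem main_leaf [Fintype V] (hG : G.Connected) {r : ℕ}
    (hfar : ∀ v, ∃ y, r ≤ G.dist v y) {l u : V} (hlu : G.Adj l u) (hl : ∀ x, G.Adj l x → x = u) :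
    Big G (2 * r) := by
  by_cases h3 : 3 ≤ r
  · exact main_large hG h3 hfar hl
  by_cases h1 : r ≤ 1
  · have := big_dist hG l u
    rw [dist_adj hlu] at this
    exact this.mono (by omega)
  obtain ⟨b, hb⟩ := hfar u
  obtain ⟨f, hf0, hfn, hf⟩ := exists_geo hG l b
  have h4 := hG.dist_triangle (u := u) (v := l) (w := b)
  rw [dist_adj hlu.symm] at h4
  have h5 : f 1 = u := by
    apply hl
    rw [← hf0, ← dist_eq_one_iff_adj, hf _ _ (by omega) (by omega)]
  have h6 := hf 1 _ (by omega) le_rfl
  rw [h5, hfn] at h6
  exact (big_dist hG l b).mono (by omega)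

theorem tree_bound [Fintype V] [Nontrivial V] (G : SimpleGraph V) [DecidableRel G.Adj]
    (hG : G.Connected) :
    ∃ S : Finset V, (G.induce (S : Set V)).IsTree ∧
      2 * (G.radius.toNat : ℝ) / (G.minDegree : ℝ) ≤ (S.card : ℝ) := by
  set r := G.radius.toNat with hr
  have hfar : ∀ v, ∃ y, r ≤ G.dist v y := by
    intro v
    obtain ⟨y, hy⟩ := G.exists_edist_eq_eccent_of_finite v
    refine ⟨y, ?_⟩
    have h1 : G.radius ≤ G.edist v y := hy ▸ radius_le_eccent
    exact ENat.toNat_le_toNat h1 (edist_ne_top_iff_reachable.2 (hG v y))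
  obtain ⟨l, hl⟩ := G.exists_minimal_degree_vertex
  have hpos : 0 < G.degree l := hG.preconnected.degree_pos_of_nontrivial l
  by_cases h1 : G.degree l = 1
  · obtain ⟨u, hu, huniq⟩ := degree_eq_one_iff_existsUnique_adj.1 h1
    obtain ⟨S, hS, hcard⟩ := main_leaf hG hfar hu huniq
    refine ⟨S, hS, ?_⟩
    rw [hl, h1]
    simp only [Nat.cast_one, div_one]
    exact_mod_cast hcard
  · obtain ⟨y, hy⟩ := hfar l
    obtain ⟨S, hS, hcard⟩ := big_dist hG l y
    refine ⟨S, hS, ?_⟩
    have h2 : (2 : ℝ) ≤ G.minDegree := by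
      have : 2 ≤ G.minDegree := by omega
      exact_mod_cast this
    have h3 : (r : ℝ) ≤ S.card := by
      have : r ≤ S.card := by omega
      exact_mod_cast this
    rw [div_le_iff₀ (by linarith)]
    have h4 : (0 : ℝ) ≤ S.card := by positivity
    nlinarith

end Pool.Agent.MP_40785c_co
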