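import Pool.Agent.MP_40785c_co.Basic

/-!
Geodesics, tails and cycles.
-/

set_option autoImplicit false

namespace Pool.Agent.MP_40785c_co

open SimpleGraph Finset

variable {V : Type*} {G : SimpleGraph V}

theorem dist_adj {a b : V} (h : G.Adj a b) : G.dist a b = 1 := dist_eq_one_iff_adj.2 h

theorem dist_chain (hG : G.Connected) (f : ℕ → V) {i j : ℕ} (hij : i ≤ j)
    (h : ∀ t, i ≤ t → t < j → G.Adj (f t) (f (t + 1))) : G.dist (f i) (f j) ≤ j - i := by
  induction j, hij using Nat.le_induction with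
  | base => simp
  | succ j hij ih =>
    have h1 := ih fun t h1 h2 => h t h1 (by omega)
    have h2 := dist_adj (h j hij (by omega))
    have h3 := hG.dist_triangle (u := f i) (v := f j) (w := f (j + 1))
    omega

theorem IndPath.dist_le (hG : G.Connected) {p : ℕ → V} {N : ℕ} (hp : IndPath G p N) {i j : ℕ}
    (hi : i < N) (hj : j < N) : G.dist (p i) (p j) ≤ (j - i) + (i - j) := by
  rcases le_total i j with h | h
  · have := dist_chain hG p h fun t h1 h2 => (hp.adj t (t + 1) (by omega) (by omega)).2 (by omega)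
    omega
  · have := dist_chain hG p h fun t h1 h2 => (hp.adj t (t + 1) (by omega) (by omega)).2 (by omega)
    rw [dist_comm]
    omega

/-- `f 0, …, f n` is a geodesic. -/
def Geo (G : SimpleGraph V) (f : ℕ → V) (n : ℕ) : Prop :=
  ∀ i j, i ≤ n → j ≤ n → G.dist (f i) (f j) = (j - i) + (i - j)

theorem exists_geo (hG : G.Connected) (a b : V) :
    ∃ f : ℕ → V, f 0 = a ∧ f (G.dist a b) = b ∧ Geo G f (G.dist a b) := by
  obtain ⟨p, hp⟩ := hG.exists_walk_length_eq_dist a b
  have h0 : p.getVert 0 = a := p.getVert_zero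
  have hn : p.getVert (G.dist a b) = b := by rw [← hp]; exact p.getVert_length
  have hadj : ∀ t, t < G.dist a b → G.Adj (p.getVert t) (p.getVert (t + 1)) :=
    fun t ht => p.adj_getVert_succ (by omega)
  have key : ∀ i j, i ≤ j → j ≤ G.dist a b → G.dist (p.getVert i) (p.getVert j) = j - i := by
    intro i j hij hj
    have h1 := dist_chain hG p.getVert hij fun t _ h => hadj t (by omega)
    have h2 := dist_chain hG p.getVert (Nat.zero_le i) fun t _ h => hadj t (by omega)
    have h3 := dist_chain hG p.getVert hj fun t _ h => hadj t (by omega)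
    rw [h0] at h2
    rw [hn] at h3
    have h4 := hG.dist_triangle (u := a) (v := p.getVert i) (w := b)
    have h5 := hG.dist_triangle (u := p.getVert i) (v := p.getVert j) (w := b)
    omega
  refine ⟨p.getVert, h0, hn, fun i j hi hj => ?_⟩
  rcases le_total i j with h | h
  · rw [key i j h hj]; omega
  · rw [dist_comm, key j i h hi]; omega

theorem Geo.indPath {f : ℕ → V} {n : ℕ} (h : Geo G f n) :
    IndPath G f (n + 1) := by
  constructor
  · intro i j hi hj
    rw [← dist_eq_one_iff_adj, h i j (by omega) (by omega)]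
    omega
  · intro i j hi hj e
    have := h i j (by omega) (by omega)
    rw [e, dist_self] at this
    omega

/-- A shortest path from `y` to a set `Z`, without its last vertex. -/
structure Tail (G : SimpleGraph V) (Z : V → Prop) (y : V) (q : ℕ → V) (s : ℕ) : Prop where
  pos : 0 < s
  start : q 0 = y
  path : IndPath G q s
  ne : ∀ i < s, ∀ z, Z z → q i ≠ z
  nadj : ∀ i, i + 1 < s → ∀ z, Z z → ¬ G.Adj (q i) z
  ex : ∃ z, Z z ∧ G.Adj (q (s - 1)) z
  near : ∀ z, G.Adj (q (s - 1)) z → G.dist y z ≤ s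
  le : ∀ z, Z z → s ≤ G.dist y z

theorem exists_tail (hG : G.Connected) (Z : V → Prop) (hZ : ∃ z, Z z) (y : V) (hy : ¬ Z y) :
    ∃ q s, Tail G Z y q s := by
  classical
  have hex : ∃ n, ∃ z, Z z ∧ G.dist y z = n := by
    obtain ⟨z, hz⟩ := hZ
    exact ⟨_, z, hz, rfl⟩
  obtain ⟨z0, hz0, hd⟩ := Nat.find_spec hex
  set s := Nat.find hex with hs
  have hmin : ∀ z, Z z → s ≤ G.dist y z := fun z hz => Nat.find_min' hex ⟨z, hz, rfl⟩
  obtain ⟨q, hq0, hqs, hq⟩ := exists_geo hG y z0
  rw [hd] at hqs hq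
  have hpos : 0 < s := by
    rw [← hd]
    exact hG.pos_dist_of_ne fun e => hy (e ▸ hz0)
  have hfar : ∀ i ≤ s, ∀ z, Z z → s ≤ i + G.dist (q i) z := by
    intro i hi z hz
    have h1 := hmin z hz
    have h2 := hG.dist_triangle (u := y) (v := q i) (w := z)
    have h3 := hq 0 i (by omega) hi
    rw [hq0] at h3
    omega
  refine ⟨q, s, hpos, hq0, hq.indPath.mono (by omega), ?_, ?_, ?_, ?_, hmin⟩
  · intro i hi z hz e
    have := hfar i hi.le z hz
    rw [e, dist_self] at this
    omega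
  · intro i hi z hz e
    have := hfar i (by omega) z hz
    rw [dist_adj e] at this
    omega
  · refine ⟨z0, hz0, ?_⟩
    rw [← hqs, ← dist_eq_one_iff_adj, hq _ _ (by omega) le_rfl]
    omega
  · intro z hz
    have h2 := hG.dist_triangle (u := y) (v := q (s - 1)) (w := z)
    have h3 := hq 0 (s - 1) (by omega) (by omega)
    rw [hq0] at h3
    rw [dist_adj hz] at h2
    omega

theorem Tail.big_two {Z : V → Prop} {y : V} {p q : ℕ → V} {N s : ℕ} (ht : Tail G Z y q s)
    (hp : IndPath G p N) (hZ : ∀ a < N, Z (p a))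
    {l1 h1 g1 l2 n2 g2 : ℕ} (hl1 : l1 ≤ g1) (hg1 : g1 ≤ h1) (h12 : h1 + 1 < l2) (hN1 : h1 < N)
    (hl2 : l2 ≤ g2) (hg2 : n2 = 0 ∨ (g2 < l2 + n2 ∧ l2 + n2 ≤ N))
    (hnb : ∀ a, (l1 ≤ a ∧ a ≤ h1) ∨ (l2 ≤ a ∧ a < l2 + n2) →
      (G.Adj (q (s - 1)) (p a) ↔ a = g1 ∨ a = g2)) :
    Big G (s + (h1 + 1 - l1) + n2) :=
  MP_40785c_co.big_two hp ht.path ht.pos hl1 hg1 h12 hN1 hl2 hg2
    (fun i hi a ha => ht.ne i hi _ (hZ a ha)) (fun i hi a ha => ht.nadj i hi _ (hZ a ha)) hnb

theorem Tail.big_one {Z : V → Prop} {y : V} {p q : ℕ → V} {N s : ℕ} (ht : Tail G Z y q s)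
    (hp : IndPath G p N) (hZ : ∀ a < N, Z (p a))
    {l1 h1 g1 : ℕ} (hl1 : l1 ≤ g1) (hg1 : g1 ≤ h1) (hN1 : h1 < N)
    (hnb : ∀ a, l1 ≤ a → a ≤ h1 → (G.Adj (q (s - 1)) (p a) ↔ a = g1)) :
    Big G (s + (h1 + 1 - l1)) := by
  have := ht.big_two hp hZ (l2 := h1 + 2) (n2 := 0) (g2 := h1 + 2) hl1 hg1 (by omega) hN1 le_rfl
    (Or.inl rfl) (fun a ha => by
      rw [hnb a (by omega) (by omega)]
      omega)
  simpa using this

/-- Reduction of an index modulo `n`, for indices below `3 * n`. -/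
def red (n i : ℕ) : ℕ := if i < n then i else if i < 2 * n then i - n else i - 2 * n

/-- The closed walk around the cycle `p 0, …, p (N - 1), y`. -/
def cyc (p : ℕ → V) (N : ℕ) (y : V) (i : ℕ) : V :=
  if red (N + 1) i < N then p (red (N + 1) i) else y

theorem cyc_indPath {p : ℕ → V} {N : ℕ} {y : V} (hp : IndPath G p N) (hN : 3 ≤ N)
    (hne : ∀ a < N, y ≠ p a) (hy : ∀ a < N, (G.Adj y (p a) ↔ a = 0 ∨ a + 1 = N)) {o : ℕ}
    (ho : o ≤ 2 * (N + 1)) : IndPath G (fun i => cyc p N y (o + i)) N := by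
  constructor
  · intro i j hi hj
    unfold cyc
    by_cases h1 : red (N + 1) (o + i) < N <;> by_cases h2 : red (N + 1) (o + j) < N
    · rw [if_pos h1, if_pos h2, hp.adj _ _ h1 h2]
      unfold red at *
      split_ifs at * <;> omega
    · rw [if_pos h1, if_neg h2, G.adj_comm, hy _ h1]
      unfold red at *
      split_ifs at * <;> omega
    · rw [if_neg h1, if_pos h2, hy _ h2]
      unfold red at *
      split_ifs at * <;> omega
    · rw [if_neg h1, if_neg h2]
      simp only [G.irrefl, false_iff]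
      unfold red at *
      split_ifs at * <;> omega
  · intro i j hi hj
    unfold cyc
    by_cases h1 : red (N + 1) (o + i) < N <;> by_cases h2 : red (N + 1) (o + j) < N
    · rw [if_pos h1, if_pos h2]
      intro e
      have := hp.inj _ _ h1 h2 e
      unfold red at *
      split_ifs at * <;> omega
    · rw [if_pos h1, if_neg h2]
      exact fun e => absurd e.symm (hne _ h1)
    · rw [if_neg h1, if_pos h2]
      exact fun e => absurd e (hne _ h2)
    · intro _
      unfold red at *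
      split_ifs at * <;> omega

theorem exists_root [Fintype V] (hG : G.Connected) {r : ℕ} (hr : 1 ≤ r)
    (hfar : ∀ v, ∃ y, r ≤ G.dist v y) :
    ∃ v0 x, G.dist v0 x = r ∧ ∀ v, G.dist v x < r → ∃ w, G.dist v0 w < r ∧ r ≤ G.dist v w := by
  have : Nonempty V := hG.nonempty
  obtain ⟨v0, hv0⟩ := Finite.exists_min fun v : V => ∑ y, (G.dist v y + 1 - r)
  obtain ⟨y0, hy0⟩ := hfar v0
  obtain ⟨f, hf0, _, hf⟩ := exists_geo hG v0 y0
  have hx : G.dist v0 (f r) = r := by
    have := hf 0 r (by omega) hy0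
    rw [hf0] at this
    omega
  refine ⟨v0, f r, hx, fun v hv => ?_⟩
  have hex : ∃ y, G.dist v0 y + 1 - r < G.dist v y + 1 - r := by
    by_contra hcon
    push Not at hcon
    have : ∑ y, (G.dist v y + 1 - r) < ∑ y, (G.dist v0 y + 1 - r) :=
      sum_lt_sum (fun y _ => hcon y) ⟨f r, mem_univ _, by omega⟩
    exact absurd (hv0 v) (not_le.2 this)
  obtain ⟨y, hy⟩ := hex
  by_cases hlt : G.dist v0 y < r
  · exact ⟨y, hlt, by omega⟩
  · obtain ⟨g, hg0, hgn, hg⟩ := exists_geo hG v0 y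
    have h1 := hg 0 (r - 1) (by omega) (by omega)
    have h2 := hg (r - 1) _ (by omega) le_rfl
    rw [hg0] at h1
    rw [hgn] at h2
    have h3 := hG.dist_triangle (u := v) (v := g (r - 1)) (w := y)
    exact ⟨g (r - 1), by omega, by omega⟩

end Pool.Agent.MP_40785c_co
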